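import Pool.Agent.Y752.QF.Stm3

/-! Project QF (MP_ea46f5_nt), job QF2-CJ: conjugation for real characters (`S_CJ`). -/

set_option autoImplicit false

open Filter Topology

namespace Pool.Agent.Y401.QF

open Pool.Agent.Y752.QF

lemma cv_conj (p : DC) (hp : p.2 ^ 2 = 1) (n : ℕ) : (starRingEnd ℂ) (cv p n) = cv p n := by
  unfold cv
  by_cases hu : IsUnit ((n : ZMod p.1))
  · have h1 : (p.2 ^ 2) (n : ZMod p.1) = 1 := by
      rw [hp, MulChar.one_apply hu]
    rw [MulChar.pow_apply' _ two_ne_zero, sq] at h1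
    rcases mul_self_eq_one_iff.1 h1 with h2 | h2
    · rw [h2, map_one]
    · rw [h2, map_neg, map_one]
  · rw [MulChar.map_nonunit _ hu, map_zero]

lemma pow_conj (n : ℕ) (u : ℝ) : (starRingEnd ℂ) ((n : ℂ) ^ (-(1 / 2 + Complex.I * (u : ℂ)))) =
    (n : ℂ) ^ (-(1 / 2 + Complex.I * ((-u : ℝ) : ℂ))) := by
  have h1 : (n : ℂ).arg ≠ Real.pi := by
    rw [Complex.natCast_arg]
    exact Real.pi_ne_zero.symm
  have h2 := Complex.cpow_conj (n : ℂ) (-(1 / 2 + Complex.I * (u : ℂ))) h1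
  rw [Complex.conj_natCast] at h2
  rw [← h2]
  congr 1
  simp [map_ofNat]

theorem CJ (h : S_L1) : S_CJ := by
  intro p u hp0 hp1 hp2
  refine ⟨?_, fun Y => ?_⟩
  · obtain ⟨C, hC, hb⟩ := h 2 le_rfl
    set S : ℝ → ℝ → ℂ := fun v N =>
      ∑' n : ℕ, cv p n * (n : ℂ) ^ (-(1 / 2 + Complex.I * (v : ℂ))) * (cut 2 (n / N) : ℂ) with hS
    have hlim : ∀ v : ℝ, Tendsto (S v) atTop (𝓝 (LL p (1 / 2 + Complex.I * (v : ℂ)))) := by
      intro v
      rw [tendsto_iff_norm_sub_tendsto_zero]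
      have h0 : Tendsto (fun N : ℝ => C * (p.1 : ℝ) ^ 2 * (2 + |v|) ^ 2 * N ^ (-(3 / 2 : ℝ))) atTop
          (𝓝 0) := by
        have := (tendsto_rpow_neg_atTop (y := (3 / 2 : ℝ)) (by norm_num)).const_mul
          (C * (p.1 : ℝ) ^ 2 * (2 + |v|) ^ 2)
        simpa using this
      refine squeeze_zero' (Eventually.of_forall fun _ => norm_nonneg _) ?_ h0
      filter_upwards [eventually_ge_atTop 1] with N hN
      rw [norm_sub_rev]
      have h1 := hb p v N hp0 hp1 hN
      have h2 : (1 / 2 - ((2 : ℕ) : ℝ)) = -(3 / 2 : ℝ) := by norm_num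
      rw [h2] at h1
      exact h1
    have hconj : ∀ N, S (-u) N = (starRingEnd ℂ) (S u N) := by
      intro N
      simp only [hS]
      rw [Complex.conj_tsum]
      refine tsum_congr fun n => ?_
      rw [map_mul, map_mul, cv_conj p hp2, pow_conj, Complex.conj_ofReal]
    have h1 := (Complex.continuous_conj.tendsto _).comp (hlim u)
    have h2 := hlim (-u)
    refine tendsto_nhds_unique h2 (h1.congr fun N => ?_)
    exact (hconj N).symm
  · unfold PY
    rw [map_sum]
    refine Finset.sum_congr rfl fun n _ => ?_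
    rw [map_mul, cv_conj p hp2, pow_conj]

end Pool.Agent.Y401.QF

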